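import Mathlib
import Pool.Agent.R494.QR8

set_option autoImplicit false

/-!
# Every finite graph is the quadratic residue graph of primes in a bounded interval

For all `k`, `m` and `c` there is `C` such that for every `r` coprime to `m` and every colouring `f` of the
natural numbers with `c` colours there are a colour `s` and infinitely many `n` for which the primes
`≡ r (mod m)` of colour `s` in the interval `[n, n + C]` realise all graphs on `k` vertices: for every graph
`G` on `{0, ..., k-1}` there are primes `p_0 < ... < p_{k-1}` among them such that `p_j` is a quadratic residue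
modulo `p_i`, `i < j`, exactly when `i` and `j` are adjacent in `G`.
-/

namespace Pool.Agent.Results.MP_8923e7_nt.EveryResidueGraph

theorem result (k m c : ℕ) (hm : 0 < m) (hc : 0 < c) : ∃ C : ℕ, ∀ r : ℕ, r.Coprime m →
    ∀ f : ℕ → Fin c, ∃ s : Fin c,
    {n : ℕ | ∀ G : SimpleGraph (Fin k), ∃ p : Fin k → ℕ, StrictMono p ∧
      (∀ i, (p i).Prime ∧ p i ≡ r [MOD m] ∧ n ≤ p i ∧ p i ≤ n + C ∧ f (p i) = s) ∧
      ∀ i j, i < j → (G.Adj i j ↔ IsSquare ((p j : ℕ) : ZMod (p i)))}.Infinite :=
  Pool.Agent.R494.QR.everyC k m c hm hc

end Pool.Agent.Results.MP_8923e7_nt.EveryResidueGraph
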