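import Mathlib
import Pool.Agent.R494.BGen5

/-!
# Every vector divisible by 4, or every vector divisible by 6, is a sum of few vectors of shifts which satisfy
the prime tuples conjecture

Fix `k ≥ 1`, an even `q` and `r` coprime to `q`, and call a vector `a` of `k` distinct nonzero integers good if
`N, N + q a_1, ..., N + q a_k` are all prime for infinitely many `N ≡ r (mod q)`. There is `E ∈ {2, 3}` such that
for every `m ≥ 8 k (k + 1)` EVERY vector of `k` integers divisible by `E` is a sum of exactly `m` good vectors.

For `q = 2`, `r = 1` this says: every vector of `(4 ℤ)^k`, or every vector of `(6 ℤ)^k`, is a sum of exactly `m`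
vectors `(a_1, ..., a_k)` for which `N, N + a_1, ..., N + a_k` are infinitely often all prime, for every
`m ≥ 8 k (k + 1)`. (All coordinates of such vectors are even.) In particular the good vectors generate a
subgroup of `ℤ^k` which contains `(4 ℤ)^k` or `(6 ℤ)^k`.

The proof uses the coloured Maynard-Tao theorem with more than a quarter of the classes (starting files,
`Pool.Agent.TH899.UG.quarterC`). It shows that the differences `t` occurring in patterns of `k + 2` primes are
not contained in `m ℤ` for any `m ≥ 4`, and that the Cayley graph of the group they generate, with the sums of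
two such differences as connection set, has no independent set with four elements that misses a class modulo 3;
hence every element of this group is a sum of eight such differences.
-/

namespace Pool.Agent.Results.MP_8923e7_nt.ExplicitGeneration

open Finset

theorem result (k q : ℕ) (r : ℤ) (hk : 1 ≤ k) (hq : 1 ≤ q) (hq2 : Even q) (hqr : IsCoprime r (q : ℤ)) :
    ∃ E : ℤ, (E = 2 ∨ E = 3) ∧ ∀ m : ℕ, 8 * k * (k + 1) ≤ m → ∀ w : Fin k → ℤ,
      ∃ v : Fin m → Fin k → ℤ, (∀ j, Function.Injective (v j) ∧ (∀ i, v j i ≠ 0) ∧
        {N : ℕ | N.Prime ∧ (N : ℤ) ≡ r [ZMOD q] ∧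
          ∀ i, ∃ p : ℕ, p.Prime ∧ (p : ℤ) = N + q * v j i}.Infinite) ∧ ∑ j, v j = E • w :=
  Pool.Agent.R494.BGen.main k q r hk hq hq2 hqr

end Pool.Agent.Results.MP_8923e7_nt.ExplicitGeneration
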