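import Mathlib
import Pool.Agent.R494.PolyTuple

/-!
# Polynomial recurrence of finite colourings along vectors of consecutive prime gaps

Let `c` be a colouring of the vectors of `e` integers with finitely many colours, `Ps` a finite set of vectors of
`e` polynomials in `k` variables with integer coefficients without constant term, and `d` any sequence of positive
integers. There are nonempty finite sets `W_0 < W_1 < ...` of indices such that for ALL finite nonempty sets
`T_0 < T_1 < ... < T_{k-1}` the integers `g_l`, the sum of the `d_a` with `a ∈ W_i`, `i ∈ T_l`, have both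
properties:

* `n, n + g_0, n + g_0 + g_1, ..., n + g_0 + ... + g_{k-1}` are `k + 1` consecutive primes for infinitely many
  `n` in a given reduced residue class, isolated from the other primes by any given distance `R`;
* the set of all `a` such that all `a + P(g_0, ..., g_{k-1})`, `P ∈ Ps`, have the colour of `a` is piecewise
  syndetic.

The theorem does this for countably many data (indexed by `j`, each with its number `k_j` of variables) with the
same `W_i`, the sets `T_l` being taken in `[j, ∞)` for the data with number `j`.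

The proof combines the gap sum systems of the starting files (`Pool.Agent.W68.Gap`) and the infinite dimensional
finite unions theorem (`Pool.Agent.W68.Mil`) with the game version of the polynomial van der Waerden theorem
(`Pool.Agent.TH956.game`).
-/

namespace Pool.Agent.Results.MP_8923e7_nt.PolynomialRecurrence

open Finset Pool.Agent.R494.PR

theorem result (e k : ℕ → ℕ) (Ps : (j : ℕ) → Finset (Fin (e j) → MvPolynomial (Fin (k j)) ℤ))
    (hPs : ∀ j, ∀ P ∈ Ps j, ∀ i, MvPolynomial.constantCoeff (P i) = 0)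
    (κ : ℕ → Type) [∀ j, Finite (κ j)] (c : (j : ℕ) → (Fin (e j) → ℤ) → κ j)
    (d : ℕ → ℕ → ℕ) (hd : ∀ j a, 1 ≤ d j a) (q : ℕ → ℕ) (hq : ∀ j, 1 ≤ q j)
    (b : ℕ → ℤ) (hb : ∀ j, IsCoprime (b j) (q j : ℤ)) :
    ∃ W : ℕ → Finset ℕ, (∀ i, (W i).Nonempty) ∧ (∀ i, ∀ a ∈ W i, ∀ a' ∈ W (i + 1), a < a') ∧
      ∀ (j : ℕ) (T : ℕ → Finset ℕ), (∀ l < k j, (T l).Nonempty) → (∀ l < k j, ∀ i ∈ T l, j ≤ i) →
        (∀ l, l + 1 < k j → ∀ i ∈ T l, ∀ i' ∈ T (l + 1), i < i') →
        ∀ g : ℕ → ℤ, (∀ l, g l = ∑ i ∈ T l, ∑ a ∈ W i, (d j a : ℤ)) →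
        (∀ R : ℕ, {n : ℕ | (n : ℤ) ≡ b j [ZMOD q j] ∧
          ∀ y : ℤ, |y| ≤ R → (Nat.Prime ((n : ℤ) + y).toNat ↔
            ∃ m ≤ k j, y = ∑ l ∈ range m, g l)}.Infinite) ∧
        PS {a : Fin (e j) → ℤ | ∀ P ∈ Ps j, c j (a + fun i =>
          MvPolynomial.eval (fun l : Fin (k j) => g l) (P i)) = c j a} :=
  poly e k Ps hPs κ c d hd q hq b hb

end Pool.Agent.Results.MP_8923e7_nt.PolynomialRecurrence
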