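import Mathlib
import Pool.Agent.R494.SzTuple2

/-!
# The multidimensional Szemeredi theorem with vectors of consecutive prime gaps as dilations

For a set `A` of vectors of `e` integers which has density at least `δ` in arbitrarily large cubes
(`Pool.Agent.TH709.RGap.Dense`), finite sets `F_0, F_1, ...` of vectors (with at most `s_l + 1` elements; the set
`F_l` may depend on the integers `g_0, ..., g_{l-1}`) and any sequence `d` of positive integers there are
nonempty finite sets `W_0 < W_1 < ...` of indices such that for ALL finite nonempty sets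
`T_0 < T_1 < ... < T_{k-1}` the integers `g_l`, the sum of the `d_a` with `a ∈ W_i`, `i ∈ T_l`, have both
properties:

* `n, n + g_0, n + g_0 + g_1, ..., n + g_0 + ... + g_{k-1}` are `k + 1` consecutive primes for infinitely many
  `n` in a given reduced residue class, isolated from the other primes by any given distance `R`;
* the set of all `a` with `a + g_0 F_0 + ... + g_{k-1} F_{k-1}` contained in `A` has density at least `η_k` in
  arbitrarily large cubes, where `η_k > 0` depends only on `k`, the sizes `s` and `δ`.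

As `F_l` may depend on `g_0, ..., g_{l-1}`, this covers all configurations `a + P_i(g_0, ..., g_{k-1})` given by
polynomials each of whose monomials has degree one in its last variable. The theorem does this for countably many
data (indexed by `j`) with the same `W_i`, the sets `T_l` being taken in `[j, ∞)` for the data with number `j`.

The proof combines the gap sum systems of the starting files (`Pool.Agent.W68.Gap`), the infinite dimensional
finite unions theorem (`Pool.Agent.W68.Mil`) and the IP version of the multidimensional Szemeredi theorem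
(`Pool.Agent.TH709.RGap.ipr`), iterated infinitely often.
-/

namespace Pool.Agent.Results.MP_8923e7_nt.SzemerediAlongGaps

open Finset Pool.Agent.TH709.RGap

theorem result : ∃ η : (ℕ → ℕ) → ℝ → ℕ → ℝ, (∀ s δ k, 0 < η s δ k) ∧
    ∀ (e : ℕ → ℕ) (A : (j : ℕ) → Set (Fin (e j) → ℤ)) (δ : ℕ → ℝ), (∀ j, 0 < δ j) →
    (∀ j, Dense (A j) (δ j)) →
    ∀ (s : ℕ → ℕ → ℕ) (F : (j l : ℕ) → (Fin l → ℤ) → Fin (s j l + 1) → Fin (e j) → ℤ)
      (d : ℕ → ℕ → ℕ), (∀ j a, 1 ≤ d j a) → ∀ (q : ℕ → ℕ), (∀ j, 1 ≤ q j) → ∀ b : ℕ → ℤ,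
      (∀ j, IsCoprime (b j) (q j : ℤ)) →
    ∃ W : ℕ → Finset ℕ, (∀ i, (W i).Nonempty) ∧ (∀ i, ∀ a ∈ W i, ∀ a' ∈ W (i + 1), a < a') ∧
      ∀ (j k : ℕ) (T : ℕ → Finset ℕ), (∀ l < k, (T l).Nonempty) → (∀ l < k, ∀ i ∈ T l, j ≤ i) →
        (∀ l, l + 1 < k → ∀ i ∈ T l, ∀ i' ∈ T (l + 1), i < i') →
        ∀ g : ℕ → ℤ, (∀ l, g l = ∑ i ∈ T l, ∑ a ∈ W i, (d j a : ℤ)) →
        (∀ R : ℕ, {n : ℕ | (n : ℤ) ≡ b j [ZMOD q j] ∧
          ∀ y : ℤ, |y| ≤ R → (Nat.Prime ((n : ℤ) + y).toNat ↔
            ∃ m ≤ k, y = ∑ l ∈ range m, g l)}.Infinite) ∧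
        Dense {a | ∀ t : (l : ℕ) → Fin (s j l + 1),
          a + ∑ l ∈ range k, g l • F j l (fun i => g i) (t l) ∈ A j} (η (s j) (δ j) k) :=
  Pool.Agent.R494.Sz.sz

end Pool.Agent.Results.MP_8923e7_nt.SzemerediAlongGaps
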